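import Pool.Agent.Helper20.Mono.GoalsS
import Pool.Agent.Helper20.Mono.Crd
import Pool.Agent.Helper20.Mono.Final
import Pool.Agent.Helper10.Mono.NewtonFan
import Pool.Agent.Helper94.Mono.Carrier
import Pool.Agent.Helper94.Mono.FaceSum

/-! # S6: the slice at the origin -/

set_option autoImplicit false

namespace Mono.Helper77

open Finset

variable {n : ℕ}

theorem projS_empty (φ : Finset (Fin n → ℤ)) : projS ∅ φ = φ := by
  classical
  unfold projS
  ext v
  simp

theorem dotR (x y : Fin n → ℤ) : toR x ⬝ᵥ toR y = ((x ⬝ᵥ y : ℤ) : ℝ) := by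
  simp [dotProduct]

/-- The coordinate subspace. -/
def W (S : Finset (Fin n)) : Submodule ℝ (Fin n → ℝ) where
  carrier := {x | ∀ i, i ∉ S → x i = 0}
  zero_mem' := fun _ _ => rfl
  add_mem' := fun hx hy i hi => by simp [hx i hi, hy i hi]
  smul_mem' := fun a x hx i hi => by simp [hx i hi]

theorem finrank_W (S : Finset (Fin n)) : Module.finrank ℝ (W S) ≤ S.card := by
  let r : W S →ₗ[ℝ] (S → ℝ) :=
    { toFun := fun x i => x.1 i.1
      map_add' := fun x y => rfl
      map_smul' := fun a x => rfl }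
  have hr : Function.Injective r := by
    intro x y hxy
    apply Subtype.ext
    funext i
    by_cases hi : i ∈ S
    · exact congrFun hxy ⟨i, hi⟩
    · rw [x.2 i hi, y.2 i hi]
  have := LinearMap.finrank_le_finrank_of_injective hr
  simpa using this

theorem toR_mem_W {φ : Finset (Fin n → ℤ)} {v : Fin n → ℤ} (hv : v ∈ φ) : toR v ∈ W (cs φ) := by
  intro i hi
  have : v i = 0 := by
    by_contra hvi
    exact hi (mem_cs_h94.2 ⟨v, hv, hvi⟩)
  simp [this]

/-- The linear span of a face of the right dimension is the coordinate subspace. -/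
theorem span_eq_W {φ : Finset (Fin n → ℤ)} {k : Fin n → ℝ} (hk : ∀ v ∈ φ, k ⬝ᵥ toR v = 1)
    (hd : dimF φ + 1 = (cs φ).card) :
    Submodule.span ℝ (toR '' (φ : Set (Fin n → ℤ))) = W (cs φ) := by
  classical
  have hne : φ.Nonempty := by
    rw [Finset.nonempty_iff_ne_empty]
    rintro rfl
    have h0 : (cs (∅ : Finset (Fin n → ℤ))) = ∅ := by
      unfold cs; simp
    rw [h0] at hd
    simp at hd
  obtain ⟨v₀, hv₀⟩ := hne
  have hV : ∀ x ∈ vectorSpan ℝ (toR '' (φ : Set (Fin n → ℤ))), k ⬝ᵥ x = 0 := by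
    intro x hx
    unfold vectorSpan at hx
    induction hx using Submodule.span_induction with
    | mem x hx =>
      obtain ⟨_, ⟨u, hu, rfl⟩, _, ⟨v, hv, rfl⟩, rfl⟩ := hx
      change k ⬝ᵥ (toR u - toR v) = 0
      rw [dotProduct_sub, hk u hu, hk v hv, sub_self]
    | zero => simp
    | add x y _ _ hx hy => rw [dotProduct_add, hx, hy, add_zero]
    | smul a x _ hx => rw [dotProduct_smul, hx, smul_zero]
  have hle : Submodule.span ℝ (toR '' (φ : Set (Fin n → ℤ))) ≤ W (cs φ) := by
    rw [Submodule.span_le]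
    rintro _ ⟨v, hv, rfl⟩
    exact toR_mem_W hv
  have hlt : vectorSpan ℝ (toR '' (φ : Set (Fin n → ℤ))) <
      Submodule.span ℝ (toR '' (φ : Set (Fin n → ℤ))) := by
    refine lt_of_le_of_ne ?_ ?_
    · unfold vectorSpan
      rw [Submodule.span_le]
      rintro _ ⟨_, ⟨u, hu, rfl⟩, _, ⟨v, hv, rfl⟩, rfl⟩
      exact Submodule.sub_mem _ (Submodule.subset_span ⟨u, hu, rfl⟩)
        (Submodule.subset_span ⟨v, hv, rfl⟩)
    · intro heq
      have h1 := hV (toR v₀) (by rw [heq]; exact Submodule.subset_span ⟨v₀, hv₀, rfl⟩)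
      rw [hk v₀ hv₀] at h1
      exact one_ne_zero h1
  have h1 := Submodule.finrank_lt_finrank_of_lt hlt
  have h2 := finrank_W (cs φ)
  apply Submodule.eq_of_le_of_finrank_le hle
  unfold dimF at hd
  omega

/-- A basis of integer vectors inside a spanning set. -/
theorem exists_basis (G : Finset (Fin n → ℤ))
    (hG : Submodule.span ℝ (toR '' (G : Set (Fin n → ℤ))) = ⊤) :
    ∃ F ⊆ G, Indep F ∧ F.card = n := by
  classical
  obtain ⟨b, hbt, hsp, hli⟩ := exists_linearIndependent ℝ (toR '' (G : Set (Fin n → ℤ)))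
  have hind : Indep (G.filter (fun u => toR u ∈ b)) := by
    have hinj : Function.Injective
        (fun u : (G.filter (fun u => toR u ∈ b)) => (⟨toR (u : Fin n → ℤ),
          (Finset.mem_filter.1 u.2).2⟩ : b)) := by
      intro u v huv
      apply Subtype.ext
      exact toR_injective (congrArg Subtype.val huv)
    exact hli.comp _ hinj
  refine ⟨G.filter (fun u => toR u ∈ b), Finset.filter_subset _ _, hind, ?_⟩
  have hrange : Set.range (fun u : (G.filter (fun u => toR u ∈ b)) => toR (u : Fin n → ℤ)) = b := by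
    ext x
    constructor
    · rintro ⟨u, rfl⟩
      exact (Finset.mem_filter.1 u.2).2
    · intro hx
      obtain ⟨u, hu, rfl⟩ := hbt hx
      exact ⟨⟨u, Finset.mem_filter.2 ⟨hu, hx⟩⟩, rfl⟩
  have h1 := Module.finrank_eq_card_basis (Module.Basis.mk hind (by rw [hrange, hsp, hG]))
  simpa using h1.symm

theorem sub1 {A : Finset (Fin n → ℤ)} {b : Fin n → ℝ} (hnn : ∀ v ∈ A, ∀ i, 0 ≤ v i)
    (hb : ∀ i, 0 < b i) {φ : Finset (Fin n → ℤ)} (hφ : φ ∈ cellsS A ∅ b)
    (hd : dimF φ + 1 = (cs φ).card) : φ ∈ cfaces A := by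
  classical
  unfold cellsS at hφ
  rw [Finset.mem_filter, Finset.mem_powerset] at hφ
  obtain ⟨hφA, k, l, -, hkl, hA, hφe⟩ := hφ
  have hk : ∀ v ∈ φ, k ⬝ᵥ toR v = 1 := by
    intro v hv
    rw [hφe, Finset.mem_filter] at hv
    exact hv.2.1
  have hl : ∀ v ∈ φ, l ⬝ᵥ toR v = 0 := by
    intro v hv
    rw [hφe, Finset.mem_filter] at hv
    exact hv.2.2
  have hsp := span_eq_W hk hd
  have hlW : ∀ x ∈ W (cs φ), l ⬝ᵥ x = 0 := by
    intro x hx
    rw [← hsp] at hx
    induction hx using Submodule.span_induction with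
    | mem x hx =>
      obtain ⟨v, hv, rfl⟩ := hx
      exact hl v hv
    | zero => simp
    | add x y _ _ hx hy => rw [dotProduct_add, hx, hy, add_zero]
    | smul a x _ hx => rw [dotProduct_smul, hx, smul_zero]
  have hlS : ∀ i ∈ cs φ, l i = 0 := by
    intro i hi
    have h1 := hlW (Pi.single i 1) (by
      intro j hj
      exact Pi.single_eq_of_ne (fun h : j = i => hj (h ▸ hi)) _)
    simpa using h1
  have hkS : ∀ i ∈ cs φ, 0 < k i := by
    intro i hi
    rcases hkl i (by simp) with h | ⟨-, h⟩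
    · exact h
    · rw [hlS i hi] at h
      exact absurd (hb i) (not_lt.2 h.le)
  -- the spanning set
  let E : Finset (Fin n → ℤ) := (univ.filter (fun j => j ∉ cs φ)).image (fun j => Pi.single j 1)
  have hG : Submodule.span ℝ (toR '' ((φ ∪ E : Finset (Fin n → ℤ)) : Set (Fin n → ℤ))) = ⊤ := by
    rw [eq_top_iff]
    intro x _
    have hx : x = ∑ i, x i • (Pi.single i 1 : Fin n → ℝ) := by
      funext j
      simp [Finset.sum_apply, Pi.single_apply]
    rw [hx]
    refine Submodule.sum_mem _ fun i _ => Submodule.smul_mem _ _ ?_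
    by_cases hi : i ∈ cs φ
    · have h1 : (Pi.single i 1 : Fin n → ℝ) ∈ W (cs φ) := by
        intro j hj
        exact Pi.single_eq_of_ne (fun h : j = i => hj (h ▸ hi)) _
      rw [← hsp] at h1
      refine Submodule.span_mono (Set.image_mono ?_) h1
      intro u hu
      exact Finset.mem_coe.2 (Finset.mem_union_left _ hu)
    · apply Submodule.subset_span
      refine ⟨Pi.single i 1, ?_, ?_⟩
      · refine Finset.mem_coe.2 (Finset.mem_union_right _ ?_)
        exact Finset.mem_image.2 ⟨i, Finset.mem_filter.2 ⟨Finset.mem_univ _, hi⟩, rfl⟩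
      · rw [Helper10.toR_single]; simp
  obtain ⟨F, hFG, hF, hc⟩ := exists_basis _ hG
  obtain ⟨M, hM, hMt⟩ := Helper10.exists_int_functional hF hc
  obtain ⟨a, ha⟩ := hMt (fun u => if u ∈ φ then 1 else 2)
  let k' : Fin n → ℝ := fun i => if i ∈ cs φ then k i else 2
  -- `k'` against vectors of the coordinate subspace
  have hk'W : ∀ v : Fin n → ℤ, (∀ i, i ∉ cs φ → v i = 0) → k' ⬝ᵥ toR v = k ⬝ᵥ toR v := by
    intro v hv
    refine Finset.sum_congr rfl fun i _ => ?_
    by_cases hi : i ∈ cs φ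
    · simp only [k', if_pos hi]
    · simp [hv i hi]
  have hk'F : ∀ u ∈ F, k' ⬝ᵥ toR u = ((if u ∈ φ then 1 else 2 : ℤ) : ℝ) := by
    intro u hu
    by_cases huφ : u ∈ φ
    · rw [if_pos huφ, hk'W u ?_, hk u huφ]
      · simp
      · intro i hi
        by_contra hvi
        exact hi (mem_cs_h94.2 ⟨u, huφ, hvi⟩)
    · rw [if_neg huφ]
      have h1 := hFG hu
      rw [Finset.mem_union] at h1
      rcases h1 with h1 | h1
      · exact absurd h1 huφ
      · obtain ⟨j, hj, rfl⟩ := Finset.mem_image.1 h1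
        rw [Helper10.toR_single]
        have hj' := (Finset.mem_filter.1 hj).2
        simp [k', hj']
  have haF : ∀ x : Fin n → ℝ, toR a ⬝ᵥ x = (M : ℝ) * (k' ⬝ᵥ x) := by
    intro x
    rw [dot_eq_sum_crd hF hc (toR a) x, dot_eq_sum_crd hF hc k' x, Finset.mul_sum]
    refine Finset.sum_congr rfl fun u hu => ?_
    rw [dotR, ha u hu, hk'F u hu]
    push_cast
    ring
  have hMR : (0 : ℝ) < (M : ℝ) := by exact_mod_cast hM
  have hapos : ∀ i, 0 < a i := by
    intro i
    have h1 := haF (Pi.single i 1)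
    have h2 : (0 : ℝ) < k' i := by
      by_cases hi : i ∈ cs φ
      · simp only [k', if_pos hi]; exact hkS i hi
      · simp only [k', if_neg hi]; norm_num
    have h3 : toR a ⬝ᵥ (Pi.single i 1 : Fin n → ℝ) = (a i : ℝ) := by simp
    have h4 : k' ⬝ᵥ (Pi.single i 1 : Fin n → ℝ) = k' i := by simp
    rw [h3, h4] at h1
    have h5 : (0 : ℝ) < (a i : ℝ) := by rw [h1]; exact mul_pos hMR h2
    exact_mod_cast h5
  -- values on A
  have hval : ∀ v ∈ A, 1 ≤ k' ⬝ᵥ toR v ∧ (k' ⬝ᵥ toR v = 1 ↔ v ∈ φ) := by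
    intro v hv
    by_cases hvW : ∀ i, i ∉ cs φ → v i = 0
    · rw [hk'W v hvW]
      have hlv : l ⬝ᵥ toR v = 0 := by
        apply hlW
        intro i hi
        simp [hvW i hi]
      refine ⟨?_, ?_, ?_⟩
      · rcases hA v hv with h | h
        · exact h.le
        · exact h.1.ge
      · intro h1
        rw [hφe, Finset.mem_filter]
        exact ⟨hv, h1, hlv⟩
      · exact hk v
    · push Not at hvW
      obtain ⟨j, hj, hvj⟩ := hvW
      have h1 : 1 ≤ v j := by
        have := hnn v hv j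
        omega
      have h2 : (2 : ℝ) ≤ k' ⬝ᵥ toR v := by
        have h3 : k' j * toR v j ≤ k' ⬝ᵥ toR v := by
          refine Finset.single_le_sum (f := fun i => k' i * toR v i) (fun i _ => ?_)
            (Finset.mem_univ j)
          refine mul_nonneg ?_ ?_
          · by_cases hi : i ∈ cs φ
            · simp only [k', if_pos hi]; exact (hkS i hi).le
            · simp only [k', if_neg hi]; norm_num
          · rw [toR_apply]; exact_mod_cast hnn v hv i
        have h4 : k' j = 2 := by simp only [k', if_neg hj]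
        rw [h4, toR_apply] at h3
        have h5 : (1 : ℝ) ≤ (v j : ℝ) := by exact_mod_cast h1
        linarith
      refine ⟨by linarith, fun h => by linarith, fun h => ?_⟩
      exfalso
      exact hj (mem_cs_h94.2 ⟨v, h, hvj⟩)
  have hav : ∀ v ∈ A, M ≤ a ⬝ᵥ v ∧ (a ⬝ᵥ v = M ↔ v ∈ φ) := by
    intro v hv
    obtain ⟨h1, h2⟩ := hval v hv
    have h3 := haF (toR v)
    rw [dotR] at h3
    constructor
    · have h4 : (M : ℝ) ≤ ((a ⬝ᵥ v : ℤ) : ℝ) := by
        rw [h3]
        nlinarith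
      exact_mod_cast h4
    · rw [← h2]
      constructor
      · intro h
        rw [h] at h3
        have h5 : (M : ℝ) * (k' ⬝ᵥ toR v) = (M : ℝ) * 1 := by rw [← h3, mul_one]
        exact mul_left_cancel₀ hMR.ne' h5
      · intro h
        rw [h, mul_one] at h3
        exact_mod_cast h3
  have hne : φ.Nonempty := by
    rw [Finset.nonempty_iff_ne_empty]
    intro h0
    have h1 : (cs (∅ : Finset (Fin n → ℤ))) = ∅ := by
      unfold cs; simp
    rw [h0, h1] at hd
    simp at hd
  obtain ⟨v₀, hv₀⟩ := hne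
  have hNA : NA A a = M :=
    NA_eq (fun v hv => (hav v hv).1) ⟨v₀, hφA hv₀, (hav v₀ (hφA hv₀)).2.2 hv₀⟩
  refine mem_cfaces.2 ⟨a, hapos, ?_⟩
  ext v
  rw [mem_face, hNA]
  constructor
  · intro hv
    exact ⟨hφA hv, (hav v (hφA hv)).2.2 hv⟩
  · rintro ⟨hv, h⟩
    exact (hav v hv).2.1 h

theorem sub2 {A : Finset (Fin n → ℤ)} {b : Fin n → ℝ} (hA : A.Nonempty)
    (hnn : ∀ v ∈ A, ∀ i, 0 ≤ v i) (h0 : (0 : Fin n → ℤ) ∉ A)
    {φ : Finset (Fin n → ℤ)} (hφ : φ ∈ cfaces A) : φ ∈ cellsS A ∅ b := by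
  classical
  obtain ⟨a, ha, hfa⟩ := mem_cfaces.1 hφ
  have hN := Fin20.NA_pos hA hnn h0 ha
  have hNR : (0 : ℝ) < (NA A a : ℝ) := by exact_mod_cast hN
  unfold cellsS
  rw [Finset.mem_filter, Finset.mem_powerset]
  refine ⟨cfaces_subset hφ, (NA A a : ℝ)⁻¹ • toR a, 0, by simp, ?_, ?_, ?_⟩
  · intro i _
    left
    rw [Pi.smul_apply, smul_eq_mul, toR_apply]
    exact mul_pos (inv_pos.2 hNR) (by exact_mod_cast ha i)
  · intro v hv
    rw [smul_dotProduct, dotR, smul_eq_mul]
    have h1 : (NA A a : ℝ) ≤ ((a ⬝ᵥ v : ℤ) : ℝ) := by exact_mod_cast NA_le hv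
    rcases h1.lt_or_eq with h | h
    · left
      rw [← div_eq_inv_mul, lt_div_iff₀ hNR]
      linarith
    · right
      rw [← h]
      exact ⟨inv_mul_cancel₀ hNR.ne', by simp⟩
  · rw [hfa]
    ext v
    rw [mem_face, Finset.mem_filter, smul_dotProduct, dotR, smul_eq_mul]
    refine and_congr_right fun hv => ?_
    constructor
    · intro h
      rw [h]
      exact ⟨inv_mul_cancel₀ hNR.ne', by simp⟩
    · rintro ⟨h, -⟩
      have h2 : ((a ⬝ᵥ v : ℤ) : ℝ) = (NA A a : ℝ) := by
        field_simp at h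
        exact h
      exact_mod_cast h2

end Mono.Helper77

namespace Mono

open Finset

/-- S6. -/
theorem zetaEmpty : ZetaEmpty := by
  classical
  intro n A b hA hnn h0 hb
  unfold zetaS zetaV
  simp only [Helper77.projS_empty]
  refine Finset.prod_congr ?_ fun _ _ => rfl
  ext φ
  rw [Finset.mem_filter, Finset.mem_filter]
  constructor
  · rintro ⟨h1, h2⟩
    exact ⟨Helper77.sub1 hnn hb h1 h2, h2⟩
  · rintro ⟨h1, h2⟩
    exact ⟨Helper77.sub2 hA hnn h0 h1, h2⟩

end Mono
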